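import Pool.Agent.Run7.h290.DS.F

set_option autoImplicit false

/-!
# MP_71ac24_nt: mean squares of Dirichlet polynomials over almost all dilates of an arbitrary separated set

Let `D(t) = ∑_{n ≤ N} a_n n^{it}`. Q1 asks, for `|a_n| ≤ 1` and `1`-separated `S ⊂ [0, T]`, `T ≤ N²`, whether
`∑_{t ∈ S} |D(t)|² ≤ C N^ε (N + |S|) N`. Here `S` is an arbitrary `1`-separated set (with no condition on `T`) and it is replaced by
its dilates `xS`, `1 ≤ x ≤ 2`, and by all translates `xS + y` of these. All complex coefficients are treated at once.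

* (1) Outside a set of `x` of measure at most `K^(-2)`, for ALL complex `a_n` and all real `y`,
  `∑_{t ∈ S} |D(xt + y)|² ≤ C (N log N + K |S| (N log N)^(1/2)) ∑ |a_n|²`: an inequality of Halász-Montgomery type, in which
  the term `|S| T^(1/2)` is replaced by `|S| N^(1/2)`; so the inequality of Q1 holds for these dilates if `|S| ≤ N^(1/2)`.
* (2) For any sequence of `1`-separated sets `S_k`: for almost all `x`, for all `ε > 0` and all large `k`, with `N = 2^k`,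
  `∑_{t ∈ S_k} |D(xt + y)|² ≤ N^ε (N + |S_k| N^(1/2)) ∑ |a_n|²` for all coefficients and all `y`.
* (3) If `S_k ⊂ [-N^A, N^A]`, `N = 2^k`, then for every `ε > 0` the set of the `x` for which the inequality of (2) fails for infinitely
  many `k` has Hausdorff dimension at most `1 - 2ε/A`.
-/

open Filter Topology MeasureTheory

namespace Pool.Agent.Results.MP_71ac24_nt.DilatesOfSets

/-- `D(t) = ∑_{n ≤ N} a_n n^{it}` -/
noncomputable def D (N : ℕ) (a : ℕ → ℂ) (t : ℝ) : ℂ :=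
  ∑ n ∈ Finset.Icc 1 N, a n * Complex.exp (Complex.I * (t : ℂ) * (Real.log (n : ℝ) : ℂ))

/-- `1`-separated -/
def Separated (S : Finset ℝ) : Prop := ∀ t ∈ S, ∀ u ∈ S, t ≠ u → 1 ≤ |t - u|

/-- the mean square inequality with the factor `B` on all translates of the dilate `xS`, for all coefficients -/
def Holds (N : ℕ) (S : Finset ℝ) (x B : ℝ) : Prop := ∀ (a : ℕ → ℂ) (y : ℝ),
  ∑ t ∈ S, ‖D N a (x * t + y)‖ ^ 2 ≤ B * ∑ n ∈ Finset.Icc 1 N, ‖a n‖ ^ 2

/-- the `x` in `[1, 2]` such that for infinitely many `k` the inequality with `N = 2^k`, `S = S_k` and the factor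
`N^ε (N + |S_k| N^(1/2))` fails for some coefficients and some translate -/
def Exceptional (ε : ℝ) (S : ℕ → Finset ℝ) : Set ℝ := {x : ℝ | x ∈ Set.Icc (1:ℝ) 2 ∧
  ∃ᶠ k : ℕ in atTop, ¬ Holds (2 ^ k) (S k) x (((2:ℝ) ^ k) ^ ε * ((2:ℝ) ^ k + (S k).card * ((2:ℝ) ^ k) ^ (1 / 2 : ℝ)))}

lemma holds_iff (N : ℕ) (S : Finset ℝ) (x B : ℝ) : Holds N S x B ↔ Pool.Agent.Run7.h290.DS.Holds N S x B := Iff.rfl

lemma exc_sub {ε : ℝ} (hε : 0 < ε) {S : ℕ → Finset ℝ} (hS : ∀ k, Separated (S k)) : Exceptional ε S ⊆ Pool.Agent.Run7.h290.DS.Ex ε S := by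
  intro x hx
  by_contra h
  refine hx.2 ?_
  filter_upwards [Pool.Agent.Run7.h290.DS.holds_ev hε hS hx.1 h] with k hk
  rw [not_not]
  exact hk

theorem result :
    (∃ C : ℝ, 0 < C ∧ ∀ (N : ℕ) (S : Finset ℝ) (K : ℝ), 2 ≤ N → Separated S → 0 < K →
      volume {x : ℝ | x ∈ Set.Icc (1:ℝ) 2 ∧ ¬ Holds N S x (C * (N * Real.log N + K * S.card * Real.sqrt (N * Real.log N)))} ≤
        ENNReal.ofReal (1 / K ^ 2)) ∧
    (∀ S : ℕ → Finset ℝ, (∀ k, Separated (S k)) → ∀ᵐ x : ℝ, x ∈ Set.Icc (1:ℝ) 2 → ∀ ε : ℝ, 0 < ε → ∀ᶠ k : ℕ in atTop,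
      Holds (2 ^ k) (S k) x (((2:ℝ) ^ k) ^ ε * ((2:ℝ) ^ k + (S k).card * ((2:ℝ) ^ k) ^ (1 / 2 : ℝ)))) ∧
    (∀ (S : ℕ → Finset ℝ) (A ε : ℝ), 0 < A → 0 < ε → (∀ k, Separated (S k)) → (∀ k, ∀ t ∈ S k, |t| ≤ ((2:ℝ) ^ k) ^ A) →
      dimH (Exceptional ε S) ≤ ENNReal.ofReal (1 - 2 * ε / A)) := by
  refine ⟨⟨600, by norm_num, ?_⟩, ?_, ?_⟩
  · intro N S K hN hS hK
    exact Pool.Agent.Run7.h290.DS.one_set hN hS hK
  · intro S hS
    have h1 : ∀ j : ℕ, ∀ᵐ x : ℝ, x ∉ Exceptional (1 / ((j:ℝ) + 1)) S := by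
      intro j
      have hj : (0:ℝ) < 1 / ((j:ℝ) + 1) := by positivity
      exact measure_eq_zero_iff_ae_notMem.1 (measure_mono_null (exc_sub hj hS) (Pool.Agent.Run7.h290.DS.Ex_null hj S))
    filter_upwards [ae_all_iff.2 h1] with x hx hx12 ε hε
    obtain ⟨j, hj⟩ := exists_nat_one_div_lt hε
    have h2 : ∀ᶠ k : ℕ in atTop, Holds (2 ^ k) (S k) x (((2:ℝ) ^ k) ^ (1 / ((j:ℝ) + 1)) * ((2:ℝ) ^ k + (S k).card * ((2:ℝ) ^ k) ^ (1 / 2 : ℝ))) := by
      by_contra h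
      exact hx j ⟨hx12, not_eventually.1 h⟩
    filter_upwards [h2] with k hk
    refine Pool.Agent.Run7.h290.DS.holds_mono hk ?_
    refine mul_le_mul_of_nonneg_right ?_ (by positivity)
    exact Real.rpow_le_rpow_of_exponent_le (one_le_pow₀ (by norm_num)) hj.le
  · intro S A ε hA hε hS hSA
    exact (dimH_mono (exc_sub hε hS)).trans (Pool.Agent.Run7.h290.DS.Ex_dim hA hSA)

end Pool.Agent.Results.MP_71ac24_nt.DilatesOfSets
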