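import Pool.Agent.Results.MP_a93a41_nt.FractionalPowersOfProducts
import Pool.Agent.Results.MP_2a1f0e_nt.FactorablePolynomials

set_option autoImplicit false

/-!
# MP_71ac24_nt: the mean square over arbitrary well-spaced sets for products of short polynomials

Let `D(t) = ∑_i w_i ∏_j D_{ij}(t)`, `∑ |w_i| ≤ 1`, `D_{ij}(t) = ∑_{n ≤ M_{ij}} c_{ij}(n) n^{it}`,
`|c_{ij}(n)| ≤ 1`, `M_{ij} ≤ N^λ`, `∏_j M_{ij} ≤ N`, `1 ≤ j ≤ J`. Then for `1 ≤ T ≤ N²`, every finite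
`1`-separated set `S ⊂ [0, T]` and every REAL `κ ≥ 1`:

`∑_{t ∈ S} |D(t)|² ≤ C N^ε (|S| N + |S|^{1 - 1/(κ + λ)} N²)` if `T ≤ N^κ`, and

`∑_{t ∈ S} |D(t)|² ≤ C N^ε (|S| N T^{1/(2κ)} + N² (N T^{-1/(2κ)})^{κ - 1 + λ})`.

For arbitrary `D` and `λ = 0` these are known for `κ = 1` (mean value theorem for well-spaced points; the
inequality of Halász and Montgomery) and follow for integers `κ` from the powers of `D`.
-/

namespace Pool.Agent.Results.MP_71ac24_nt.MeanSquareOfProducts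

open Finset

/-- `∑_{n ≤ M} c_n n^{it}` -/
noncomputable def P (M : ℕ) (c : ℕ → ℂ) (t : ℝ) : ℂ :=
  ∑ n ∈ Icc 1 M, c n * (n : ℂ) ^ (Complex.I * t)

/-- `D(t) = ∑_i w_i ∏_j P_{ij}(t)` -/
noncomputable def D {m J : ℕ} (w : Fin m → ℂ) (M : Fin m → Fin J → ℕ) (c : Fin m → Fin J → ℕ → ℂ)
    (t : ℝ) : ℂ :=
  ∑ i, w i * ∏ j, P (M i j) (c i j) t

section proof

lemma P_conj (M : ℕ) (c : ℕ → ℂ) (t : ℝ) : P M c t = (starRingEnd ℂ)
    (MP_a93a41_nt.FractionalPowersOfProducts.D M (fun n => (starRingEnd ℂ) (c n)) t) := by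
  unfold P MP_a93a41_nt.FractionalPowersOfProducts.D
  rw [map_sum]
  refine sum_congr rfl fun n hn => ?_
  have hn0 : (n : ℂ) ≠ 0 := by
    have := (mem_Icc.1 hn).1
    exact_mod_cast (show n ≠ 0 by omega)
  rw [map_mul, Complex.conj_conj]
  congr 1
  rw [Complex.cpow_def_of_ne_zero hn0, Complex.cpow_def_of_ne_zero hn0, ← Complex.exp_conj,
    ← Complex.natCast_log, map_mul, map_neg, map_mul, Complex.conj_I, Complex.conj_ofReal,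
    Complex.conj_ofReal]
  congr 1
  ring

lemma P_norm (M : ℕ) (c : ℕ → ℂ) (t : ℝ) : ‖P M c t‖ =
    ‖MP_a93a41_nt.FractionalPowersOfProducts.D M (fun n => (starRingEnd ℂ) (c n)) t‖ := by
  rw [P_conj, RCLike.norm_conj]

lemma P_le (M : ℕ) (c : ℕ → ℂ) (hc : ∀ n, ‖c n‖ ≤ 1) (t : ℝ) : ‖P M c t‖ ≤ M := by
  unfold P
  refine (norm_sum_le _ _).trans ?_
  calc ∑ n ∈ Icc 1 M, ‖c n * (n : ℂ) ^ (Complex.I * t)‖ ≤ ∑ _n ∈ Icc 1 M, (1 : ℝ) := by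
        refine sum_le_sum fun n hn => ?_
        have hn1 := (mem_Icc.1 hn).1
        rw [norm_mul, Complex.norm_natCast_cpow_of_pos (by omega)]
        have h0 : (Complex.I * (t : ℂ)).re = 0 := by simp
        rw [h0, Real.rpow_zero, mul_one]
        exact hc n
    _ = M := by rw [sum_const, Nat.card_Icc, nsmul_eq_mul]; simp

lemma prod_le {J : ℕ} (M : Fin J → ℕ) (c : Fin J → ℕ → ℂ) (N : ℕ) (hMN : ∏ j, M j ≤ N)
    (hc : ∀ j n, ‖c j n‖ ≤ 1) (t : ℝ) : ‖∏ j, P (M j) (c j) t‖ ≤ N := by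
  rw [norm_prod]
  calc ∏ j, ‖P (M j) (c j) t‖ ≤ ∏ j, (M j : ℝ) :=
        prod_le_prod (fun _ _ => norm_nonneg _) fun j _ => P_le _ _ (hc j) t
    _ = ((∏ j, M j : ℕ) : ℝ) := by push_cast; rfl
    _ ≤ N := by exact_mod_cast hMN

theorem single (J : ℕ) (ε : ℝ) (hJ : 1 ≤ J) (hε : 0 < ε) :
    ∃ C : ℝ, 0 < C ∧ ∀ (N : ℕ) (T κ lam : ℝ) (M : Fin J → ℕ) (c : Fin J → ℕ → ℂ) (S : Finset ℝ),
      1 ≤ N → 1 ≤ T → T ≤ (N : ℝ) ^ 2 → 1 ≤ κ → 0 ≤ lam →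
      (∀ j, 1 ≤ M j) → (∀ j, (M j : ℝ) ≤ (N : ℝ) ^ lam) → ∏ j, M j ≤ N → (∀ j n, ‖c j n‖ ≤ 1) →
      (∀ t ∈ S, 0 ≤ t ∧ t ≤ T) → (∀ t ∈ S, ∀ u ∈ S, t ≠ u → 1 ≤ |t - u|) →
      (T ≤ (N : ℝ) ^ κ → ∑ t ∈ S, ‖∏ j, P (M j) (c j) t‖ ^ 2 ≤
        C * (N : ℝ) ^ ε * (S.card * N + (S.card : ℝ) ^ (1 - 1 / (κ + lam)) * (N : ℝ) ^ 2)) ∧
      ∑ t ∈ S, ‖∏ j, P (M j) (c j) t‖ ^ 2 ≤
        C * (N : ℝ) ^ ε * (S.card * N * T ^ (1 / (2 * κ)) +
          (N : ℝ) ^ 2 * ((N : ℝ) * T ^ (-(1 / (2 * κ)))) ^ (κ - 1 + lam)) := by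
  obtain ⟨C1, hC1, h1⟩ := MP_a93a41_nt.FractionalPowersOfProducts.result J (ε / 4) hJ (by positivity)
  obtain ⟨C2, hC2⟩ : ∃ C2 : ℝ, C2 = max C1 1 := ⟨_, rfl⟩
  have hC21 : 1 ≤ C2 := by rw [hC2]; exact le_max_right _ _
  have hC2' : C1 ≤ C2 := by rw [hC2]; exact le_max_left _ _
  obtain ⟨K, hK⟩ : ∃ K : ℝ, K = 1 + 2 / (ε / 8) := ⟨_, rfl⟩
  have hK0 : 1 ≤ K := by
    rw [hK]
    have : 0 < 2 / (ε / 8) := by positivity
    linarith
  refine ⟨2 * K * C2 + 1, by positivity, ?_⟩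
  intro N T κ lam M c S hN hT hTN hκ hlam hM hML hMN hc hS hsep
  have hN1 : (1 : ℝ) ≤ N := by exact_mod_cast hN
  have hN0 : (0 : ℝ) < N := by linarith
  have hT0 : 0 < T := by linarith
  obtain ⟨R, hR⟩ : ∃ R : ℝ, R = (S.card : ℝ) := ⟨_, rfl⟩
  have hR0 : 0 ≤ R := by rw [hR]; exact Nat.cast_nonneg _
  -- the lowest level
  obtain ⟨V, hV⟩ : ∃ V : ℝ, V = N * T ^ (ε / 4) := ⟨_, rfl⟩
  have hTe : 1 ≤ T ^ (ε / 4) := Real.one_le_rpow hT (by positivity)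
  have hTe2 : T ^ (ε / 4) ≤ (N : ℝ) ^ (ε / 2) := by
    calc T ^ (ε / 4) ≤ ((N : ℝ) ^ 2) ^ (ε / 4) := Real.rpow_le_rpow hT0.le hTN (by positivity)
      _ = (N : ℝ) ^ (ε / 2) := by
        rw [← Real.rpow_natCast, ← Real.rpow_mul hN0.le]
        congr 1
        push_cast
        ring
  have hVN : (N : ℝ) ≤ V := by rw [hV]; nlinarith
  have hV1 : 1 ≤ V := hN1.trans hVN
  have hV0 : 0 < V := by linarith
  have hVe : V ≤ N * (N : ℝ) ^ (ε / 2) := by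
    rw [hV]
    exact mul_le_mul_of_nonneg_left hTe2 hN0.le
  obtain ⟨I, hI, hIc⟩ := Run7.h415.LV.levels_card (ε / 8) (by positivity) ((N : ℝ) ^ 2)
    (one_le_pow₀ hN1)
  have hIc2 : (I : ℝ) ≤ K * (N : ℝ) ^ (ε / 4) := by
    rw [← hK] at hIc
    refine hIc.trans (le_of_eq ?_)
    rw [← Real.rpow_natCast, ← Real.rpow_mul hN0.le]
    congr 2
    push_cast
    ring
  have hPI : ∀ t ∈ S, ‖∏ j, P (M j) (c j) t‖ ^ 2 < 2 ^ I * V := by
    intro t _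
    have h2 := prod_le M c N hMN hc t
    have h3 : ‖∏ j, P (M j) (c j) t‖ ^ 2 ≤ (N : ℝ) ^ 2 := pow_le_pow_left₀ (norm_nonneg _) h2 2
    have h4 : (0 : ℝ) < 2 ^ I := by positivity
    nlinarith
  have hlev := Run7.h415.LV.levels S (fun t => ‖∏ j, P (M j) (c j) t‖ ^ 2) V hV0 I hPI
  -- the size of a level set
  have hcard : ∀ v : ℝ, V ≤ v → T ≤ (max (N : ℝ) ((v / N) ^ 2)) ^ κ →
      ((S.filter (fun t => v ≤ ‖∏ j, P (M j) (c j) t‖ ^ 2)).card : ℝ) ≤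
        C2 * (N : ℝ) ^ (ε / 4) * ((N : ℝ) ^ 2 / v) ^ (κ + lam) := by
    intro v hv hTv
    have hv0 : 0 < v := by linarith
    have hsq : (√v) ^ 2 = v := Real.sq_sqrt hv0.le
    have h2 := h1 N T (√v) κ lam M (fun j n => (starRingEnd ℂ) (c j n))
      (S.filter (fun t => v ≤ ‖∏ j, P (M j) (c j) t‖ ^ 2)) hN hT (Real.sqrt_pos.2 hv0)
      (by rw [hsq, ← hV]; exact hv) (by linarith) hlam (by rw [hsq]; exact hTv) hM hML hMN
      (fun j n => by rw [RCLike.norm_conj]; exact hc j n)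
      (fun t ht => hS t (mem_filter.1 ht).1)
      (fun t ht u hu => hsep t (mem_filter.1 ht).1 u (mem_filter.1 hu).1)
      (fun t ht => by
        have h3 := (mem_filter.1 ht).2
        have e : ‖∏ j, MP_a93a41_nt.FractionalPowersOfProducts.D (M j)
            (fun n => (starRingEnd ℂ) (c j n)) t‖ = ‖∏ j, P (M j) (c j) t‖ := by
          rw [norm_prod, norm_prod]
          exact prod_congr rfl fun j _ => (P_norm _ _ _).symm
        rw [e]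
        exact Real.sqrt_le_iff.2 ⟨norm_nonneg _, h3⟩)
    rw [hsq] at h2
    refine h2.trans ?_
    gcongr
  have hcardR : ∀ v : ℝ, ((S.filter (fun t => v ≤ ‖∏ j, P (M j) (c j) t‖ ^ 2)).card : ℝ) ≤ R := by
    intro v
    rw [hR]
    exact_mod_cast card_filter_le _ _
  -- the sum over the levels, given a bound `B` for each of them
  have hfin : ∀ B : ℝ, 0 ≤ B → (∀ v : ℝ, V ≤ v → v ≤ (N : ℝ) ^ 2 ∨ v ≤ (N : ℝ) ^ 2 ∨ True →
      v * ((S.filter (fun t => v ≤ ‖∏ j, P (M j) (c j) t‖ ^ 2)).card : ℝ) ≤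
        C2 * (N : ℝ) ^ (ε / 4) * B) → R * N ≤ B →
      ∑ t ∈ S, ‖∏ j, P (M j) (c j) t‖ ^ 2 ≤ (2 * K * C2 + 1) * (N : ℝ) ^ ε * B := by
    intro B hB hBv hRB
    have h2 : ∑ i ∈ range I, 2 * (2 ^ i * V *
        ((S.filter (fun t => 2 ^ i * V ≤ ‖∏ j, P (M j) (c j) t‖ ^ 2)).card : ℝ)) ≤
        ∑ _i ∈ range I, 2 * (C2 * (N : ℝ) ^ (ε / 4) * B) := by
      refine sum_le_sum fun i _ => ?_
      have h3 : V ≤ 2 ^ i * V := le_mul_of_one_le_left hV0.le (one_le_pow₀ (by norm_num))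
      exact mul_le_mul_of_nonneg_left (hBv _ h3 (Or.inr (Or.inr trivial))) (by norm_num)
    rw [sum_const, card_range, nsmul_eq_mul] at h2
    have e1 : (N : ℝ) ^ (ε / 4) * (N : ℝ) ^ (ε / 4) = (N : ℝ) ^ (ε / 2) := by
      rw [← Real.rpow_add hN0]
      congr 1
      ring
    have e2 : (N : ℝ) ^ (ε / 2) ≤ (N : ℝ) ^ ε :=
      Real.rpow_le_rpow_of_exponent_le hN1 (by linarith)
    have h4 : (I : ℝ) * (2 * (C2 * (N : ℝ) ^ (ε / 4) * B)) ≤ 2 * K * C2 * (N : ℝ) ^ ε * B := by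
      calc (I : ℝ) * (2 * (C2 * (N : ℝ) ^ (ε / 4) * B))
          ≤ K * (N : ℝ) ^ (ε / 4) * (2 * (C2 * (N : ℝ) ^ (ε / 4) * B)) :=
            mul_le_mul_of_nonneg_right hIc2 (by positivity)
        _ = 2 * K * C2 * ((N : ℝ) ^ (ε / 4) * (N : ℝ) ^ (ε / 4)) * B := by ring
        _ ≤ 2 * K * C2 * (N : ℝ) ^ ε * B := by
            rw [e1]
            gcongr
    have h5 : R * V ≤ (N : ℝ) ^ ε * B := by
      calc R * V ≤ R * (N * (N : ℝ) ^ (ε / 2)) := mul_le_mul_of_nonneg_left hVe hR0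
        _ = (N : ℝ) ^ (ε / 2) * (R * N) := by ring
        _ ≤ (N : ℝ) ^ ε * B := by gcongr
    rw [← hR] at hlev
    calc _ ≤ R * V + _ := hlev
      _ ≤ (N : ℝ) ^ ε * B + 2 * K * C2 * (N : ℝ) ^ ε * B := add_le_add h5 (h2.trans h4)
      _ = _ := by ring
  have hNe : 1 ≤ (N : ℝ) ^ (ε / 4) := Real.one_le_rpow hN1 (by positivity)
  have hCN : 1 ≤ C2 * (N : ℝ) ^ (ε / 4) := one_le_mul_of_one_le_of_one_le hC21 hNe
  constructor
  · intro hTκ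
    rw [← hR]
    have hθ : 0 < κ + lam := by linarith
    obtain ⟨θ, hθd⟩ : ∃ θ : ℝ, θ = 1 / (κ + lam) := ⟨_, rfl⟩
    have hθ0 : 0 < θ := by rw [hθd]; positivity
    have hθ1 : θ ≤ 1 := by
      rw [hθd, div_le_one hθ]
      linarith
    rw [← hθd]
    refine hfin (R * N + R ^ (1 - θ) * (N : ℝ) ^ 2) (by positivity) (fun v hv _ => ?_)
      (by have : 0 ≤ R ^ (1 - θ) * (N : ℝ) ^ 2 := by positivity
          linarith)
    have hv0 : 0 < v := by linarith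
    obtain ⟨k, hk⟩ : ∃ k : ℝ, k = ((S.filter (fun t => v ≤ ‖∏ j, P (M j) (c j) t‖ ^ 2)).card : ℝ) :=
      ⟨_, rfl⟩
    have hk0 : 0 ≤ k := by rw [hk]; exact Nat.cast_nonneg _
    have hkR : k ≤ R := by rw [hk]; exact hcardR v
    have hkv := hcard v hv (hTκ.trans (Real.rpow_le_rpow hN0.le (le_max_left _ _) (by linarith)))
    rw [← hk] at hkv ⊢
    rcases hk0.eq_or_lt with h0 | h0
    · rw [← h0, mul_zero]
      positivity
    · have e1 : k = k ^ (1 - θ) * k ^ θ := by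
        rw [← Real.rpow_add h0]
        simp
      have h2 : k ^ (1 - θ) ≤ R ^ (1 - θ) := Real.rpow_le_rpow hk0 hkR (by linarith)
      have h3 : k ^ θ ≤ C2 * (N : ℝ) ^ (ε / 4) * ((N : ℝ) ^ 2 / v) := by
        calc k ^ θ ≤ (C2 * (N : ℝ) ^ (ε / 4) * ((N : ℝ) ^ 2 / v) ^ (κ + lam)) ^ θ :=
              Real.rpow_le_rpow hk0 hkv hθ0.le
          _ = (C2 * (N : ℝ) ^ (ε / 4)) ^ θ * ((N : ℝ) ^ 2 / v) := by
              rw [Real.mul_rpow (by positivity) (by positivity), ← Real.rpow_mul (by positivity),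
                hθd, mul_one_div_cancel hθ.ne', Real.rpow_one]
          _ ≤ C2 * (N : ℝ) ^ (ε / 4) * ((N : ℝ) ^ 2 / v) := by
              apply mul_le_mul_of_nonneg_right _ (by positivity)
              calc (C2 * (N : ℝ) ^ (ε / 4)) ^ θ ≤ (C2 * (N : ℝ) ^ (ε / 4)) ^ (1 : ℝ) :=
                    Real.rpow_le_rpow_of_exponent_le hCN hθ1
                _ = _ := Real.rpow_one _
      calc v * k = v * (k ^ (1 - θ) * k ^ θ) := by rw [← e1]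
        _ ≤ v * (R ^ (1 - θ) * (C2 * (N : ℝ) ^ (ε / 4) * ((N : ℝ) ^ 2 / v))) := by gcongr
        _ = C2 * (N : ℝ) ^ (ε / 4) * (R ^ (1 - θ) * (N : ℝ) ^ 2) := by
            field_simp
        _ ≤ C2 * (N : ℝ) ^ (ε / 4) * (R * N + R ^ (1 - θ) * (N : ℝ) ^ 2) := by
            apply mul_le_mul_of_nonneg_left _ (by positivity)
            have : 0 ≤ R * N := by positivity
            linarith
  · rw [← hR]
    have hκ0 : 0 < κ := by linarith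
    obtain ⟨v1, hv1⟩ : ∃ v1 : ℝ, v1 = N * T ^ (1 / (2 * κ)) := ⟨_, rfl⟩
    have hTk1 : 1 ≤ T ^ (1 / (2 * κ)) := Real.one_le_rpow hT (by positivity)
    have hv1N : (N : ℝ) ≤ v1 := by rw [hv1]; nlinarith
    have hv10 : 0 < v1 := by linarith
    have e0 : (N : ℝ) * T ^ (-(1 / (2 * κ))) = (N : ℝ) ^ 2 / v1 := by
      rw [hv1, Real.rpow_neg hT0.le]
      field_simp
    rw [e0]
    obtain ⟨B, hB⟩ : ∃ B : ℝ, B = R * N * T ^ (1 / (2 * κ)) +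
      (N : ℝ) ^ 2 * ((N : ℝ) ^ 2 / v1) ^ (κ - 1 + lam) := ⟨_, rfl⟩
    rw [← hB]
    have hBa : 0 ≤ (N : ℝ) ^ 2 * ((N : ℝ) ^ 2 / v1) ^ (κ - 1 + lam) := by positivity
    have hBb : 0 ≤ R * N * T ^ (1 / (2 * κ)) := by positivity
    have hB0 : 0 ≤ B := by rw [hB]; linarith
    refine hfin B hB0 (fun v hv _ => ?_) ?_
    · have hv0 : 0 < v := by linarith
      rcases le_total v v1 with hvv | hvv
      · calc v * ((S.filter (fun t => v ≤ ‖∏ j, P (M j) (c j) t‖ ^ 2)).card : ℝ)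
            ≤ v1 * R := mul_le_mul hvv (hcardR v) (Nat.cast_nonneg _) hv10.le
          _ = R * N * T ^ (1 / (2 * κ)) := by rw [hv1]; ring
          _ ≤ 1 * B := by rw [hB, one_mul]; linarith
          _ ≤ C2 * (N : ℝ) ^ (ε / 4) * B := mul_le_mul_of_nonneg_right hCN hB0
      · have hTv : T ≤ (max (N : ℝ) ((v / N) ^ 2)) ^ κ := by
          have h2 : T ^ (1 / (2 * κ)) ≤ v / N := by
            rw [le_div_iff₀ hN0, mul_comm, ← hv1]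
            exact hvv
          have h3 : T = ((T ^ (1 / (2 * κ))) ^ 2) ^ κ := by
            rw [← Real.rpow_natCast, ← Real.rpow_mul hT0.le, ← Real.rpow_mul hT0.le]
            have : 1 / (2 * κ) * ((2 : ℕ) : ℝ) * κ = 1 := by
              push_cast
              field_simp
            rw [this, Real.rpow_one]
          calc T = ((T ^ (1 / (2 * κ))) ^ 2) ^ κ := h3
            _ ≤ ((v / N) ^ 2) ^ κ := by gcongr
            _ ≤ _ := Real.rpow_le_rpow (by positivity) (le_max_right _ _) hκ0.le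
        have h2 := hcard v hv hTv
        have h4 : ((N : ℝ) ^ 2 / v) ^ (κ + lam) =
            (N : ℝ) ^ 2 / v * ((N : ℝ) ^ 2 / v) ^ (κ - 1 + lam) := by
          have h5 : κ + lam = 1 + (κ - 1 + lam) := by ring
          rw [h5, Real.rpow_add (by positivity), Real.rpow_one]
        have h6 : ((N : ℝ) ^ 2 / v) ^ (κ - 1 + lam) ≤ ((N : ℝ) ^ 2 / v1) ^ (κ - 1 + lam) :=
          Real.rpow_le_rpow (by positivity) (by gcongr) (by linarith)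
        calc v * ((S.filter (fun t => v ≤ ‖∏ j, P (M j) (c j) t‖ ^ 2)).card : ℝ)
            ≤ v * (C2 * (N : ℝ) ^ (ε / 4) * ((N : ℝ) ^ 2 / v) ^ (κ + lam)) :=
              mul_le_mul_of_nonneg_left h2 hv0.le
          _ = C2 * (N : ℝ) ^ (ε / 4) * ((N : ℝ) ^ 2 * ((N : ℝ) ^ 2 / v) ^ (κ - 1 + lam)) := by
              rw [h4]
              field_simp
          _ ≤ C2 * (N : ℝ) ^ (ε / 4) * ((N : ℝ) ^ 2 * ((N : ℝ) ^ 2 / v1) ^ (κ - 1 + lam)) := by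
              gcongr
          _ ≤ C2 * (N : ℝ) ^ (ε / 4) * B := by
              apply mul_le_mul_of_nonneg_left _ (by positivity)
              rw [hB]
              linarith
    · calc R * N = R * N * 1 := by ring
        _ ≤ R * N * T ^ (1 / (2 * κ)) := by gcongr
        _ ≤ B := by rw [hB]; linarith

lemma hull2 (m : ℕ) (w z : Fin m → ℂ) (hw : ∑ i, ‖w i‖ ≤ 1) :
    ‖∑ i, w i * z i‖ ^ 2 ≤ ∑ i, ‖w i‖ * ‖z i‖ ^ 2 := by
  have h := MP_2a1f0e_nt.FactorablePolynomials.hull m w z 2 (by norm_num) hw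
  simpa only [Real.rpow_two] using h

end proof

theorem result (J : ℕ) (ε : ℝ) (hJ : 1 ≤ J) (hε : 0 < ε) :
    ∃ C : ℝ, 0 < C ∧ ∀ (N m : ℕ) (T κ lam : ℝ) (w : Fin m → ℂ) (M : Fin m → Fin J → ℕ)
      (c : Fin m → Fin J → ℕ → ℂ) (S : Finset ℝ),
      1 ≤ N → 1 ≤ T → T ≤ (N : ℝ) ^ 2 → 1 ≤ κ → 0 ≤ lam → ∑ i, ‖w i‖ ≤ 1 →
      (∀ i j, 1 ≤ M i j) → (∀ i j, (M i j : ℝ) ≤ (N : ℝ) ^ lam) → (∀ i, ∏ j, M i j ≤ N) →
      (∀ i j n, ‖c i j n‖ ≤ 1) → (∀ t ∈ S, 0 ≤ t ∧ t ≤ T) →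
      (∀ t ∈ S, ∀ u ∈ S, t ≠ u → 1 ≤ |t - u|) →
      (T ≤ (N : ℝ) ^ κ → ∑ t ∈ S, ‖D w M c t‖ ^ 2 ≤
        C * (N : ℝ) ^ ε * (S.card * N + (S.card : ℝ) ^ (1 - 1 / (κ + lam)) * (N : ℝ) ^ 2)) ∧
      ∑ t ∈ S, ‖D w M c t‖ ^ 2 ≤
        C * (N : ℝ) ^ ε * (S.card * N * T ^ (1 / (2 * κ)) +
          (N : ℝ) ^ 2 * ((N : ℝ) * T ^ (-(1 / (2 * κ)))) ^ (κ - 1 + lam)) := by
  obtain ⟨C, hC, h1⟩ := single J ε hJ hε
  refine ⟨C, hC, ?_⟩
  intro N m T κ lam w M c S hN hT hTN hκ hlam hw hM hML hMN hc hS hsep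
  have hN0 : (0 : ℝ) < N := by exact_mod_cast hN
  have hT0 : 0 < T := by linarith
  have key : ∀ B : ℝ, 0 ≤ B → (∀ i, ∑ t ∈ S, ‖∏ j, P (M i j) (c i j) t‖ ^ 2 ≤ B) →
      ∑ t ∈ S, ‖D w M c t‖ ^ 2 ≤ B := by
    intro B hB h
    calc ∑ t ∈ S, ‖D w M c t‖ ^ 2 ≤ ∑ t ∈ S, ∑ i, ‖w i‖ * ‖∏ j, P (M i j) (c i j) t‖ ^ 2 :=
          sum_le_sum fun t _ => hull2 m w _ hw
      _ = ∑ i, ‖w i‖ * ∑ t ∈ S, ‖∏ j, P (M i j) (c i j) t‖ ^ 2 := by
          rw [sum_comm]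
          exact sum_congr rfl fun i _ => (mul_sum _ _ _).symm
      _ ≤ ∑ i, ‖w i‖ * B := sum_le_sum fun i _ => mul_le_mul_of_nonneg_left (h i) (norm_nonneg _)
      _ = (∑ i, ‖w i‖) * B := (sum_mul _ _ _).symm
      _ ≤ 1 * B := mul_le_mul_of_nonneg_right hw hB
      _ = B := one_mul B
  have h2 := fun i => h1 N T κ lam (M i) (c i) S hN hT hTN hκ hlam (hM i) (hML i) (hMN i) (hc i) hS hsep
  exact ⟨fun h => key _ (by positivity) fun i => (h2 i).1 h, key _ (by positivity) fun i => (h2 i).2⟩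

end Pool.Agent.Results.MP_71ac24_nt.MeanSquareOfProducts
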