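import Mathlib
import Pool.Agent.Run7.h175.MV.Core

set_option autoImplicit false

/-!
# Mean squares over separated sets for almost all polynomial twists

Let `|a_n| ≤ 1`. For a polynomial `f` without constant term, of degree at most `d` and with
coefficients in `{0, ..., Q - 1}`, `Q ≥ (d + 1) N^d`, put
`D_f(t) = ∑_{n ≤ N} a_n e(f(n) / Q) n^{it}`. For all but at most `N^{-η} Q^d` of the `Q^d`
polynomials `f` the following holds for all `T ≤ N²` and all `1`-separated finite `S ⊂ [0, T]` at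
once, with `θ = 1 / (d + 1)`:

`∑_{t ∈ S} |D_f(t)|² ≤ C N^{1 + (η + ε) θ} |S|^{1 - θ} (max(T, 1) + N)^θ`,

and hence `∑_{t ∈ S} |D_f(t)|² ≤ C N^{(1 + η + ε) θ} (N + |S|) N`.
-/

namespace Pool.Agent.Results.MP_71ac24_nt.PolynomialTwistsMeanSquare

open Finset

/-- `e(f(n)/Q)` for the polynomial `f = f_0 X + f_1 X^2 + ... + f_{d-1} X^d`. -/
noncomputable def phase (Q : ℕ) {d : ℕ} (f : Fin d → Fin Q) (n : ℕ) : ℂ :=
  Complex.exp (2 * Real.pi * Complex.I * ((∑ j, ((f j).val : ℂ) * (n : ℂ) ^ (j.val + 1)) / Q))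

/-- The twisted Dirichlet polynomial `D_f(t) = ∑_{n ≤ N} a_n e(f(n)/Q) n^{it}`. -/
noncomputable def D (Q : ℕ) {d : ℕ} (N : ℕ) (a : ℕ → ℂ) (f : Fin d → Fin Q) (t : ℝ) : ℂ :=
  ∑ n ∈ Icc 1 N, a n * phase Q f n * Complex.exp (Complex.I * (t : ℂ) * (Real.log (n : ℝ) : ℂ))

lemma D_eq (Q d N : ℕ) (a : ℕ → ℂ) (f : Fin d → Fin Q) (t : ℝ) :
    D Q N a f t = Run7.h175.MV.DD Q d N a f t := rfl

theorem result (d : ℕ) (ε : ℝ) (hε : 0 < ε) :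
    ∃ C : ℝ, 1 ≤ C ∧ ∀ N Q : ℕ, 1 ≤ N → (d + 1) * N ^ d ≤ Q →
      ∀ a : ℕ → ℂ, (∀ n, ‖a n‖ ≤ 1) → ∀ η : ℝ, 0 ≤ η →
        ∃ E : Finset (Fin d → Fin Q), (E.card : ℝ) ≤ (N : ℝ) ^ (-η) * (Q : ℝ) ^ d ∧
          ∀ f ∉ E, ∀ T : ℝ, T ≤ (N : ℝ) ^ 2 → ∀ S : Finset ℝ, (∀ t ∈ S, 0 ≤ t ∧ t ≤ T) →
            (∀ t ∈ S, ∀ u ∈ S, t ≠ u → 1 ≤ |t - u|) →
            ∑ t ∈ S, ‖D Q N a f t‖ ^ 2 ≤
              C * (N : ℝ) ^ (1 + (η + ε) / (d + 1)) * (S.card : ℝ) ^ (1 - 1 / ((d : ℝ) + 1)) *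
                (max T 1 + N) ^ (1 / ((d : ℝ) + 1)) ∧
            ∑ t ∈ S, ‖D Q N a f t‖ ^ 2 ≤
              C * (N : ℝ) ^ ((1 + η + ε) / (d + 1)) * ((N : ℝ) + (S.card : ℝ)) * (N : ℝ) := by
  obtain ⟨C₀, hC₀, h⟩ := Run7.h175.MV.coreM d 2 ε hε
  set C : ℝ := max 1 C₀ with hC
  have hC1 : 1 ≤ C := le_max_left _ _
  have hC0 : 0 < C := by linarith
  refine ⟨2 * C, by linarith, ?_⟩
  intro N Q hN hQ a ha η hη
  have hNr1 : (1 : ℝ) ≤ (N : ℝ) := by exact_mod_cast hN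
  have hNr : (0 : ℝ) < (N : ℝ) := by linarith
  obtain ⟨E, hE1, hE2⟩ := h N Q hN hQ a ha ((N : ℝ) ^ η) (Real.rpow_pos_of_pos hNr _)
  refine ⟨E, ?_, ?_⟩
  · rw [Real.rpow_neg hNr.le, inv_mul_eq_div, le_div_iff₀ (Real.rpow_pos_of_pos hNr _)]
    exact hE1
  intro f hf T hT S hS hsep
  set θ : ℝ := 1 / ((d : ℝ) + 1) with hθ
  have hd1 : (0 : ℝ) < d + 1 := by positivity
  have hθ0 : 0 < θ := by positivity
  have hθ1 : θ ≤ 1 := by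
    rw [hθ, div_le_one hd1]
    have : (0 : ℝ) ≤ d := Nat.cast_nonneg d
    linarith
  set T' : ℝ := max T 1 with hT'
  have hT'1 : 1 ≤ T' := le_max_right _ _
  have hT'2 : T' ≤ (N : ℝ) ^ (2 : ℝ) := by
    rw [Real.rpow_two]
    exact max_le hT (by nlinarith)
  have h1 : ∑ t ∈ S, ‖D Q N a f t‖ ^ (2 * (d + 1)) ≤
      C * (N : ℝ) ^ (η + ε) * (T' + N) * (N : ℝ) ^ (d + 1) := by
    have h2 := hE2 f hf T' hT'1 hT'2 S
      (fun t ht => ⟨(hS t ht).1, (hS t ht).2.trans (le_max_left _ _)⟩) hsep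
    simp only [← D_eq] at h2
    refine h2.trans ?_
    rw [Real.rpow_add hNr]
    have h3 : C₀ ≤ C := le_max_right _ _
    calc C₀ * (N : ℝ) ^ η * (N : ℝ) ^ ε * (T' + N) * (N : ℝ) ^ (d + 1)
        ≤ C * (N : ℝ) ^ η * (N : ℝ) ^ ε * (T' + N) * (N : ℝ) ^ (d + 1) := by gcongr
      _ = C * ((N : ℝ) ^ η * (N : ℝ) ^ ε) * (T' + N) * (N : ℝ) ^ (d + 1) := by ring
  have h1' : ∑ t ∈ S, ‖D Q N a f t‖ ^ (2 * ((d : ℝ) + 1)) ≤
      C * (N : ℝ) ^ (η + ε) * (T' + N) * (N : ℝ) ^ ((d : ℝ) + 1) := by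
    have e1 : (2 * ((d : ℝ) + 1)) = ((2 * (d + 1) : ℕ) : ℝ) := by push_cast; ring
    have e2 : ((d : ℝ) + 1) = ((d + 1 : ℕ) : ℝ) := by push_cast; ring
    rw [e1, e2, Real.rpow_natCast]
    simp only [Real.rpow_natCast]
    exact h1
  have h2 := Run7.h175.MV.pmean S (fun t => ‖D Q N a f t‖) (fun t _ => norm_nonneg _)
    (q := 2) (p := 2 * ((d : ℝ) + 1)) (X := (S.card : ℝ)) (by norm_num)
    (by
      have : (0 : ℝ) ≤ d := Nat.cast_nonneg d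
      linarith) (Nat.cast_nonneg _) le_rfl h1'
  have e0 : 2 / (2 * ((d : ℝ) + 1)) = θ := by
    rw [hθ]
    field_simp
  rw [e0] at h2
  have hTN : 0 < T' + N := by linarith
  have h3 : (C * (N : ℝ) ^ (η + ε) * (T' + N) * (N : ℝ) ^ ((d : ℝ) + 1)) ^ θ =
      C ^ θ * (N : ℝ) ^ (1 + (η + ε) / (d + 1)) * (T' + N) ^ θ := by
    rw [Real.mul_rpow (by positivity) (by positivity), Real.mul_rpow (by positivity) hTN.le,
      Real.mul_rpow hC0.le (by positivity), ← Real.rpow_mul hNr.le, ← Real.rpow_mul hNr.le]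
    have e1 : ((d : ℝ) + 1) * θ = 1 := by
      rw [hθ]
      field_simp
    have e2 : (η + ε) * θ = (η + ε) / (d + 1) := by
      rw [hθ]
      ring
    rw [e1, e2, Real.rpow_add hNr]
    ring
  rw [h3] at h2
  have hCθ : C ^ θ ≤ C := by
    calc C ^ θ ≤ C ^ (1 : ℝ) := Real.rpow_le_rpow_of_exponent_le hC1 hθ1
      _ = C := Real.rpow_one C
  have hconv : ∑ t ∈ S, ‖D Q N a f t‖ ^ 2 = ∑ t ∈ S, ‖D Q N a f t‖ ^ (2 : ℝ) := by
    refine Finset.sum_congr rfl fun t _ => ?_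
    rw [Real.rpow_two]
  have hfirst : ∑ t ∈ S, ‖D Q N a f t‖ ^ 2 ≤
      C * (N : ℝ) ^ (1 + (η + ε) / (d + 1)) * (S.card : ℝ) ^ (1 - θ) * (T' + N) ^ θ := by
    rw [hconv]
    refine h2.trans ?_
    calc (S.card : ℝ) ^ (1 - θ) * (C ^ θ * (N : ℝ) ^ (1 + (η + ε) / (d + 1)) * (T' + N) ^ θ)
        ≤ (S.card : ℝ) ^ (1 - θ) * (C * (N : ℝ) ^ (1 + (η + ε) / (d + 1)) * (T' + N) ^ θ) := by
          gcongr
      _ = C * (N : ℝ) ^ (1 + (η + ε) / (d + 1)) * (S.card : ℝ) ^ (1 - θ) * (T' + N) ^ θ := by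
          ring
  constructor
  · refine hfirst.trans ?_
    gcongr
    linarith
  · refine hfirst.trans ?_
    have h5 : (T' + N) ^ θ ≤ 2 * (N : ℝ) ^ θ * (N : ℝ) ^ θ := by
      have h6 : T' + N ≤ 2 * (N * N) := by
        rw [Real.rpow_two] at hT'2
        nlinarith
      calc (T' + N) ^ θ ≤ (2 * ((N : ℝ) * N)) ^ θ := Real.rpow_le_rpow hTN.le h6 hθ0.le
        _ = 2 ^ θ * ((N : ℝ) ^ θ * (N : ℝ) ^ θ) := by
            rw [Real.mul_rpow (by norm_num) (by positivity), Real.mul_rpow hNr.le hNr.le]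
        _ ≤ 2 * ((N : ℝ) ^ θ * (N : ℝ) ^ θ) := by
            have h7 : (2 : ℝ) ^ θ ≤ 2 := by
              calc (2 : ℝ) ^ θ ≤ 2 ^ (1 : ℝ) :=
                    Real.rpow_le_rpow_of_exponent_le (by norm_num) hθ1
                _ = 2 := Real.rpow_one 2
            gcongr
        _ = 2 * (N : ℝ) ^ θ * (N : ℝ) ^ θ := by ring
    have h8 : (S.card : ℝ) ^ (1 - θ) * (N : ℝ) ^ θ ≤ (N : ℝ) + S.card := by
      have h9 := Real.geom_mean_le_arith_mean2_weighted (by linarith : 0 ≤ 1 - θ) hθ0.le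
        (Nat.cast_nonneg S.card : (0 : ℝ) ≤ S.card) hNr.le (by ring)
      have hc : (0 : ℝ) ≤ S.card := Nat.cast_nonneg _
      nlinarith [mul_nonneg hθ0.le hc, mul_nonneg (by linarith : 0 ≤ 1 - θ) hNr.le]
    have h10 : (N : ℝ) ^ (1 + (η + ε) / (d + 1)) * (N : ℝ) ^ θ =
        (N : ℝ) ^ ((1 + η + ε) / (d + 1)) * N := by
      rw [← Real.rpow_add hNr]
      nth_rewrite 3 [← Real.rpow_one (N : ℝ)]
      rw [← Real.rpow_add hNr]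
      congr 1
      rw [hθ]
      ring
    calc C * (N : ℝ) ^ (1 + (η + ε) / (d + 1)) * (S.card : ℝ) ^ (1 - θ) * (T' + N) ^ θ
        ≤ C * (N : ℝ) ^ (1 + (η + ε) / (d + 1)) * (S.card : ℝ) ^ (1 - θ) *
          (2 * (N : ℝ) ^ θ * (N : ℝ) ^ θ) := by gcongr
      _ = 2 * C * ((N : ℝ) ^ (1 + (η + ε) / (d + 1)) * (N : ℝ) ^ θ) *
          ((S.card : ℝ) ^ (1 - θ) * (N : ℝ) ^ θ) := by ring
      _ ≤ 2 * C * ((N : ℝ) ^ (1 + (η + ε) / (d + 1)) * (N : ℝ) ^ θ) *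
          ((N : ℝ) + S.card) := by gcongr
      _ = 2 * C * (N : ℝ) ^ ((1 + η + ε) / (d + 1)) * ((N : ℝ) + (S.card : ℝ)) * (N : ℝ) := by
          rw [h10]
          ring

end Pool.Agent.Results.MP_71ac24_nt.PolynomialTwistsMeanSquare
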