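import Mathlib
import Pool.Agent.Run7.h794.QT.E

/-!
# Montgomery's inequality for almost all quadratic twists of any bounded sequences

For odd `d` let `(n/d)` be the Jacobi symbol, a real character modulo `d`. For all `A`, `B`, `D` and `ε > 0` there are
`K` and `C` such that for every family `F` of at most `N ^ B` sequences bounded by one, in EVERY interval of length
`P ≥ N ^ K` all but at most `P / N ^ B` of the odd `d` (primes or not) satisfy, with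
`D(t) = ∑_{n ≤ M} a_n (n/d) e(f(n)) n ^ (it)`,

  `∑_{t ∈ S} |D(t)| ^ 2 ≤ C N ^ ε |S| N`

for all `a` in `F`, all `M ≤ N`, ALL real polynomials `f` of degree at most `D` and all finite sets `S` of real numbers
`t`, `|t| ≤ N ^ A`.
-/

set_option autoImplicit false

namespace Pool.Agent.Results.MP_71ac24_nt.QuadraticTwists

open Finset
open Pool.Agent.Run7.h794.QT (twist)

theorem result (A B D : ℕ) (ε : ℝ) (hε : 0 < ε) : ∃ K : ℕ, ∃ C : ℝ, 0 < C ∧ ∀ N : ℕ, 1 ≤ N → ∀ x P : ℕ, N ^ K ≤ P →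
    ∀ F : Finset (ℕ → ℂ), F.card ≤ N ^ B → (∀ a ∈ F, ∀ n, ‖a n‖ ≤ 1) →
    ∃ Bad ⊆ Ioc x (x + P), Bad.card * N ^ B ≤ P ∧ ∀ d ∈ Ioc x (x + P), Odd d → d ∉ Bad → ∀ a ∈ F, ∀ M ≤ N,
      ∀ (θ : Fin D → ℝ) (S : Finset ℝ), (∀ t ∈ S, |t| ≤ (N : ℝ) ^ A) →
        ∑ t ∈ S, ‖twist a d M θ t‖ ^ 2 ≤ C * (N : ℝ) ^ ε * S.card * N := by
  obtain ⟨K, C, hC, h⟩ := Pool.Agent.Run7.h794.QT.main A B D (u := ε / 2) (by positivity)
  refine ⟨K, C ^ 2, by positivity, fun N hN x P hP F hF ha => ?_⟩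
  have hN0 : (0 : ℝ) < N := by exact_mod_cast (by omega : 0 < N)
  obtain ⟨Bad, h1, h2, h3⟩ := h N hN x P hP F hF ha
  refine ⟨Bad, h1, h2, fun d hd hodd hdB a haF M hM θ S hS => ?_⟩
  have h4 : ∀ t ∈ S, ‖twist a d M θ t‖ ^ 2 ≤ C ^ 2 * (N : ℝ) ^ ε * N := by
    intro t ht
    have h5 := h3 d hd hodd hdB a haF M hM θ t (hS t ht)
    calc ‖twist a d M θ t‖ ^ 2 ≤ (C * (N : ℝ) ^ (1 / 2 + ε / 2)) ^ 2 := pow_le_pow_left₀ (norm_nonneg _) h5 2
      _ = C ^ 2 * (N : ℝ) ^ ε * N := by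
          have e1 : ((N : ℝ) ^ (1 / 2 + ε / 2)) ^ 2 = (N : ℝ) ^ ε * N := by
            rw [← Real.rpow_natCast, ← Real.rpow_mul hN0.le]
            have : (1 / 2 + ε / 2) * ((2 : ℕ) : ℝ) = ε + 1 := by
              push_cast
              ring
            rw [this, Real.rpow_add hN0, Real.rpow_one]
          rw [mul_pow, e1]
          ring
  refine (sum_le_sum h4).trans (le_of_eq ?_)
  rw [sum_const, nsmul_eq_mul]
  ring

end Pool.Agent.Results.MP_71ac24_nt.QuadraticTwists
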